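import Pool.Agent.N714.AP.Fin

set_option autoImplicit false

/-!
# Progression free sets and circuits of constant depth

Let `N = 2 ^ n`. A subset of `{0, …, N - 1}` is decided by a circuit which reads the `n` binary
digits of a number (definition `Decided`); the size of the circuit is `2 ^ ℓ`, its depth is `d`, and
`loss w ℓ d = d (2 ^ (d + 9) w ℓ) ^ d`. For circuits of constant depth with `n ^ O(1)` nodes the loss
is a power of `log n = log log N`. The results: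

* sets which are decided by such circuits and contain no `k` terms in progression have at most
  `N ^ (1 - c / loss)` elements, even if only differences `2 ^ j` are excluded, and there are such
  sets with `N ^ (1 - C / √(log log N))` elements;
* sets free of progressions are small inside all sets decided by circuits: Szemeredi's theorem holds
  relative to all sets decided by circuits with `N ^ (1 - c / loss)` elements;
* the extremal sets of `r_3(N)`, and all sets free of three term progressions with at least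
  `N exp (- C √(log N))` elements, are far from all sets decided by circuits, and even from disjoint
  unions of `exp (c n / loss)` such sets.
-/

namespace Pool.Agent.Results.MP_0f71ae_nt.ConstantDepthCircuits

open Finset

/-- `A` contains no `k` terms `a, a + q, …, a + (k - 1) q` with `q ∈ D`. -/
def NoAP (k : ℕ) (D : Set ℕ) (A : Finset ℕ) : Prop :=
  ∀ a q : ℕ, q ∈ D → ∃ i < k, a + i * q ∉ A

/-- The numbers `a 2 ^ j` with `1 ≤ a ≤ Q` and `j ≥ 0`. -/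
def Steps (Q : ℕ) : Set ℕ := {q | ∃ a j : ℕ, 1 ≤ a ∧ a ≤ Q ∧ q = a * 2 ^ j}

/-- `F ⊆ {0, …, 2 ^ n - 1}` is decided by a circuit of depth at most `d` with at most `2 ^ ℓ` nodes,
which reads the `n` binary digits of a number; its gates are AND and OR gates of any number of wires
and arbitrary gates with at most `w` wires, negations are free. -/
def Decided (w ℓ d n : ℕ) (F : Finset ℕ) : Prop :=
  ∃ (C : Y603.MS.Circuit w n) (o : C.Node), C.leak = ∅ ∧ Nat.card C.Node ≤ 2 ^ ℓ ∧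
    (∀ v, C.depth v ≤ d) ∧ ∀ x, x ∈ F ↔ x < 2 ^ n ∧ C.val o (Y603.MS.bits n x) = true

/-- `F` is a disjoint union of `T` sets decided by such circuits. -/
def Pieces (T w ℓ d n : ℕ) (F : Finset ℕ) : Prop :=
  ∃ G : Fin T → Finset ℕ, (∀ i, Decided w ℓ d n (G i)) ∧
    (∀ i j, i ≠ j → Disjoint (G i) (G j)) ∧ ∀ x, x ∈ F ↔ ∃ i, x ∈ G i

/-- `loss w ℓ d = d (2 ^ (d + 9) w ℓ) ^ d` -/
def loss (w ℓ d : ℕ) : ℕ := d * (2 ^ (d + 9) * (w * ℓ)) ^ d

/-- **Theorem.** Let `w, ℓ, d ≥ 1`.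
(1) Let `1 ≤ m ≤ n` and `k ≤ 2 ^ m`. If `A` is a union of `T` decided subsets of `{0, …, 2 ^ n - 1}`
and `A` contains no progression of `k` terms whose difference is a power of two, then
`|A| ≤ T m 2 ^ (2 m + 3) 2 ^ n 2 ^ (2 ℓ + 4 - ⌊n / m⌋ / (2 ^ (m + 2) loss))`.
(2) Let `1 ≤ m ≤ n`, `k ≥ 2` and suppose that subsets of `{0, …, 2 ^ m - 1}` without progressions of
`k` terms have at most `r` elements. If `F` is a disjoint union of `T` decided sets and `A` contains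
no `k` terms in progression whose difference is a power of two times a number `≤ 2 ^ m`, then
`|A ∩ F| ≤ (r / 2 ^ m + ε) |F| + T (2 m / ε) 2 ^ n 2 ^ (2 ℓ + 4 - (ε / 2) ⌊n / m⌋ / loss)` for every
`ε > 0`.
(3) **Relative Szemeredi theorem.** For all `k` and `δ > 0` there are `c > 0` and `Q` such that
`|A ∩ F| ≤ δ |F| + T 2 ^ n 2 ^ (2 ℓ + 1 / c - c n / loss)` for every disjoint union `F` of `T`
decided sets and every `A` without progressions of `k` terms whose difference is a power of two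
times a number `≤ Q`.
(4) Let `A` be free of three term progressions, `|A| ≥ 2 ^ (n - K √n)` (with `K = 5` this holds for
the extremal sets, `|A| = r_3(2 ^ n)`). If `A` is a union of `T` decided sets, then
`T ≥ 2 ^ (⌊n / 2⌋ / (16 loss) - 2 ℓ - K √n - 12)`. If `F` is a disjoint union of `T` decided sets,
then `|A Δ F| ≥ (1 - T 2 ^ (2 ℓ + 1 / c + K √n - c n / loss)) |A|`, with an absolute constant
`c > 0`: no such set approximates `A` better than the empty set.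
(5) Let `1 ≤ L ≤ n`, `d ≥ 2` and `n 2 ^ (L + 1) ≤ 2 ^ ℓ`. There is a decided set which is free of three
term progressions and has at least `r_3(2 ^ (L - 1)) ^ ⌊n / L⌋ ≥ 2 ^ (n - L - 6 n / √L)` elements. -/
theorem result :
    (∀ n m k T w ℓ d : ℕ, 1 ≤ w → 1 ≤ ℓ → 1 ≤ d → 1 ≤ m → m ≤ n → k ≤ 2 ^ m →
      ∀ (A : Finset ℕ) (F : Fin T → Finset ℕ), NoAP k (Steps 1) A →
        (∀ i, Decided w ℓ d n (F i)) → (∀ x, x ∈ A ↔ ∃ i, x ∈ F i) →
        (A.card : ℝ) ≤ T * (m * 2 ^ (2 * m + 3)) * (2 ^ n *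
          (2 : ℝ) ^ (2 * ℓ + 4 - (n / m : ℕ) / (2 ^ (m + 2) * loss w ℓ d) : ℝ))) ∧
    (∀ n m k r T w ℓ d : ℕ, 1 ≤ w → 1 ≤ ℓ → 1 ≤ d → 1 ≤ m → m ≤ n → 2 ≤ k →
      (∀ B : Finset ℕ, B ⊆ range (2 ^ m) → NoAP k {q | 0 < q} B → B.card ≤ r) →
      ∀ F A : Finset ℕ, Pieces T w ℓ d n F → NoAP k (Steps (2 ^ m)) A → ∀ ε : ℝ, 0 < ε →
        ((A ∩ F).card : ℝ) ≤ (r / 2 ^ m + ε) * F.card + T * (2 * m / ε *
          (2 ^ n * (2 : ℝ) ^ (2 * ℓ + 4 - ε / 2 * (n / m : ℕ) / loss w ℓ d : ℝ)))) ∧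
    (∀ (k : ℕ) (δ : ℝ), 0 < δ → ∃ c : ℝ, 0 < c ∧ ∃ Q : ℕ, ∀ n w ℓ d T : ℕ, 1 ≤ w → 1 ≤ ℓ → 1 ≤ d →
      ∀ F A : Finset ℕ, Pieces T w ℓ d n F → NoAP k (Steps Q) A →
        ((A ∩ F).card : ℝ) ≤ δ * F.card +
          T * (2 ^ n * (2 : ℝ) ^ (2 * ℓ + 1 / c - c * n / loss w ℓ d : ℝ))) ∧
    ((∀ n w ℓ d T : ℕ, 1 ≤ w → 1 ≤ ℓ → 1 ≤ d → 2 ≤ n → ∀ (K : ℝ) (A : Finset ℕ)
        (F : Fin T → Finset ℕ), NoAP 3 {q | 0 < q} A → (2 : ℝ) ^ (n - K * √n : ℝ) ≤ A.card →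
        (∀ i, Decided w ℓ d n (F i)) → (∀ x, x ∈ A ↔ ∃ i, x ∈ F i) →
        (2 : ℝ) ^ ((n / 2 : ℕ) / (16 * loss w ℓ d) - 2 * ℓ - K * √n - 12 : ℝ) ≤ T) ∧
      (∃ c : ℝ, 0 < c ∧ ∀ n w ℓ d T : ℕ, 1 ≤ w → 1 ≤ ℓ → 1 ≤ d → ∀ (K : ℝ) (A F : Finset ℕ),
        NoAP 3 {q | 0 < q} A → (2 : ℝ) ^ (n - K * √n : ℝ) ≤ A.card → Pieces T w ℓ d n F →
        (1 - T * (2 : ℝ) ^ (2 * ℓ + 1 / c + K * √n - c * n / loss w ℓ d : ℝ)) * A.card ≤
          (symmDiff A F).card) ∧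
      (∀ n : ℕ, (2 : ℝ) ^ (n - 5 * √n : ℝ) ≤ rothNumberNat (2 ^ n))) ∧
    (∀ n L w ℓ d : ℕ, 1 ≤ L → L ≤ n → 1 ≤ w → 2 ≤ d → n * 2 ^ (L + 1) ≤ 2 ^ ℓ →
      (∃ A : Finset ℕ, NoAP 3 {q | 0 < q} A ∧ Decided w ℓ d n A ∧
        rothNumberNat (2 ^ (L - 1)) ^ (n / L) ≤ A.card) ∧
      (2 : ℝ) ^ (n - L - 6 * n / √L : ℝ) ≤ (rothNumberNat (2 ^ (L - 1)) : ℝ) ^ (n / L)) := by
  refine ⟨?_, ?_, ?_, ⟨?_, ?_, N714.AP.roth_pow⟩, ?_⟩
  · intro n m k T w ℓ d hw hℓ hd hm hmn hk A F hA hF hun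
    have h := N714.AP.union_bound hℓ hw hd hm hmn hk F hA hF hun
    rw [N714.AP.err] at h
    have e : (1 : ℝ) / 2 ^ (m + 1) / 2 * ((n / m : ℕ) : ℝ) / (N714.AP.loss w ℓ d : ℝ) =
        ((n / m : ℕ) : ℝ) / (2 ^ (m + 2) * (loss w ℓ d : ℝ)) := by
      have h1 : (0 : ℝ) < N714.AP.loss w ℓ d := by
        have := N714.AP.one_le_loss hw hℓ hd
        linarith
      have e1 : (loss w ℓ d : ℝ) = N714.AP.loss w ℓ d := rfl
      rw [e1]
      field_simp
      ring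
    rw [e] at h
    exact h
  · intro n m k r T w ℓ d hw hℓ hd hm hmn hk hr F A hF hA ε hε
    exact N714.AP.rel_pieces hℓ hw hd hm hmn hF (N714.AP.class_le hk hA hr) hε
  · intro k δ hδ
    exact N714.AP.rel_szem k δ hδ
  · intro n w ℓ d T hw hℓ hd hn K A F hA hc hF hun
    refine N714.AP.pieces_lower hℓ hw hd hn (N714.AP.NoAP.mono hA ?_ (Subset.refl _)) hc F hF hun
    rintro q ⟨a, j, ha, -, rfl⟩
    show 0 < a * 2 ^ j
    positivity
  · exact N714.AP.approx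
  · intro n L w ℓ d hL hLn hw hd hℓ
    exact ⟨N714.AP.construction hL hLn hw hd hℓ, N714.AP.size_lower hL hLn⟩

end Pool.Agent.Results.MP_0f71ae_nt.ConstantDepthCircuits
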