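import Pool.Agent.N389.QB.Final

set_option autoImplicit false

/-!
# Progression-free sets have large digit boundary, and relative density in all sets of small one

Sets of numbers without `k` terms in progression have small relative density inside *every* set
`F ⊆ {0, …, q ^ n - 1}`, however sparse, such that on average only a small multiple of `q n` of the
`q n` replacements of one of the `n` digits in base `q` lead out of `F`. The extremal sets of
`r_3(q ^ n)`, and all other sets without three terms in progression, have a digit boundary of the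
largest possible order of magnitude, and they are far from all sets of smaller digit boundary.
-/

namespace Pool.Agent.Results.MP_0f71ae_nt.SmallBoundary

open Finset

/-- `A` contains no `k` terms `a, a + d, …, a + (k - 1) d` with `d ∈ D`. -/
def NoAP (k : ℕ) (D : Set ℕ) (A : Finset ℕ) : Prop :=
  ∀ a d : ℕ, d ∈ D → ∃ i < k, a + i * d ∉ A

/-- The numbers `a q ^ j` with `1 ≤ a ≤ Q` and `j ≥ 0`. -/
def Steps (q Q : ℕ) : Set ℕ := {d | ∃ a j : ℕ, 1 ≤ a ∧ a ≤ Q ∧ d = a * q ^ j}

/-- The number which arises from `x` if its digit at the place `i` (of value `q ^ i`) in base `q` is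
replaced by `s`. -/
def setDigit (q x i s : ℕ) : ℕ := x - x / q ^ i % q * q ^ i + s * q ^ i

/-- The digit boundary of `F ⊆ {0, …, q ^ n - 1}` in base `q`: the number of the triples of a number
`x` in `F`, a place `i < n` and a digit `s < q` such that the number which arises from `x` if its
digit at the place `i` is replaced by `s` is not in `F`. -/
def boundary (q n : ℕ) (F : Finset ℕ) : ℕ :=
  ((F ×ˢ (range n ×ˢ range q)).filter fun t => setDigit q t.1 t.2.1 t.2.2 ∉ F).card

/-- On `{0, …, q ^ n - 1}` the indicator function of `F` is a sum of real functions each of which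
depends on at most `D` digits in base `q` only. -/
def DegreeLe (q n D : ℕ) (F : Finset ℕ) : Prop :=
  ∃ (I : ℕ) (g : Fin I → ℕ → ℝ) (T : Fin I → Finset ℕ),
    (∀ t, (T t).card ≤ D ∧ ∀ x < q ^ n, ∀ y < q ^ n,
      (∀ i ∈ T t, x / q ^ i % q = y / q ^ i % q) → g t x = g t y) ∧
    ∀ x < q ^ n, ∑ t, g t x = if x ∈ F then 1 else 0

/-- **Theorem.** Let `q ≥ 2`; `r_3(N)` is Mathlib's `rothNumberNat N`.
(1) Let `1 ≤ m ≤ n`, and suppose that the subsets of `{0, …, q ^ m - 1}` without progressions of `k`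
terms with difference at most `Q` have at most `r` elements. Let `F ⊆ {0, …, q ^ n - 1}` have digit
boundary at most `ε q ⌊n / m⌋ |F|`. If `A` contains no progression of `k` terms with a difference
`a q ^ j`, `1 ≤ a ≤ Q`, then `|A ∩ F| ≤ (r / q ^ m + ε) |F|`.
(2) **Relative Szemeredi theorem.** For all `k ≥ 1` and `δ > 0` there are `c > 0`, `n₀` and `Q` such
that for all `q ≥ 2`, `n ≥ n₀`, all `F ⊆ {0, …, q ^ n - 1}` with digit boundary at most `c q n |F|`,
however small `|F|` is, and all `A` without progressions of `k` terms with a difference `a q ^ j`,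
`1 ≤ a ≤ Q`: `|A ∩ F| ≤ δ |F|`.
(3) Every `A ⊆ {0, …, q ^ n - 1}` without three terms in progression has digit boundary at least
`(1 - r_3(q ^ m) / q ^ m) q ⌊n / m⌋ |A|` for all `1 ≤ m ≤ n`, and at most `(q - 1) n |A|`; for `q = 2`
it is at least `⌊n / 3⌋ |A|`.
(4) There are `c > 0` and `n₀` such that for all `q ≥ 2`, `n ≥ n₀`, all `A` without three terms in
progression and all `F ⊆ {0, …, q ^ n - 1}` with digit boundary at most `c q n |F|`:
`|A Δ F| ≥ |A|`; no such `F` approximates `A` better than the empty set.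
(5) If on `{0, …, q ^ n - 1}` the indicator function of `F` is a sum of real functions of at most `D`
digits in base `q`, then the digit boundary of `F` is at most `q D |F|`; so (2) and (4) apply to `F`
if `D ≤ c n`, and `⌊n / 3⌋ ≤ 2 D` if `q = 2` and `F` is nonempty without three terms in
progression. -/
theorem result :
    (∀ q n m k Q r : ℕ, 2 ≤ q → 1 ≤ m → m ≤ n →
      (∀ B : Finset ℕ, B ⊆ range (q ^ m) → NoAP k {d | 1 ≤ d ∧ d ≤ Q} B → B.card ≤ r) →
      ∀ F A : Finset ℕ, F ⊆ range (q ^ n) → NoAP k (Steps q Q) A → ∀ ε : ℝ,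
        (boundary q n F : ℝ) ≤ ε * (q * (n / m : ℕ)) * F.card →
          ((A ∩ F).card : ℝ) ≤ (r / (q : ℝ) ^ m + ε) * F.card) ∧
    (∀ (k : ℕ) (δ : ℝ), 1 ≤ k → 0 < δ → ∃ c : ℝ, 0 < c ∧ ∃ n₀ Q : ℕ, ∀ q n : ℕ, 2 ≤ q → n₀ ≤ n →
      ∀ F A : Finset ℕ, F ⊆ range (q ^ n) → NoAP k (Steps q Q) A →
        (boundary q n F : ℝ) ≤ c * (q * n) * F.card → ((A ∩ F).card : ℝ) ≤ δ * F.card) ∧
    (∀ (q n : ℕ) (A : Finset ℕ), 2 ≤ q → A ⊆ range (q ^ n) → NoAP 3 {d | 0 < d} A →
      (∀ m : ℕ, 1 ≤ m → m ≤ n →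
        (1 - (rothNumberNat (q ^ m) : ℝ) / (q : ℝ) ^ m) * (q * (n / m : ℕ)) * A.card ≤
          boundary q n A) ∧
      boundary q n A ≤ (q - 1) * n * A.card ∧
      (q = 2 → n / 3 * A.card ≤ boundary q n A)) ∧
    (∃ c : ℝ, 0 < c ∧ ∃ n₀ : ℕ, ∀ q n : ℕ, 2 ≤ q → n₀ ≤ n → ∀ A F : Finset ℕ,
      NoAP 3 {d | 0 < d} A → F ⊆ range (q ^ n) → (boundary q n F : ℝ) ≤ c * (q * n) * F.card →
        A.card ≤ (symmDiff A F).card) ∧
    (∀ (q n D : ℕ) (F : Finset ℕ), 2 ≤ q → F ⊆ range (q ^ n) → DegreeLe q n D F →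
      boundary q n F ≤ q * D * F.card ∧
      (q = 2 → F.Nonempty → NoAP 3 {d | 0 < d} F → n / 3 ≤ 2 * D)) := by
  classical
  have h3 : ∀ (q n : ℕ) (A : Finset ℕ), 2 ≤ q → A ⊆ range (q ^ n) → NoAP 3 {d | 0 < d} A →
      q = 2 → n / 3 * A.card ≤ boundary q n A := by
    rintro q n A - hAr hA rfl
    rcases Nat.lt_or_ge n 3 with hn | hn
    · rw [Nat.div_eq_of_lt hn]
      omega
    have h1 := Pool.Agent.N389.QB.roth_lower (q := 2) (n := n) (m := 3) (by norm_num) (by norm_num)
      hn A hAr hA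
    have h2 : (rothNumberNat (2 ^ 3) : ℝ) ≤ 4 := by
      have := Pool.Agent.N389.QB.roth8
      exact_mod_cast this
    have h4 : (0 : ℝ) ≤ ((n / 3 : ℕ) : ℝ) * A.card := by positivity
    have h5 : ((n / 3 * A.card : ℕ) : ℝ) ≤ (boundary 2 n A : ℝ) := by
      refine le_trans ?_ h1
      have h6 : (1 : ℝ) / 2 ≤ 1 - (rothNumberNat (2 ^ 3) : ℝ) / ((2 : ℕ) : ℝ) ^ 3 := by
        have : (rothNumberNat (2 ^ 3) : ℝ) / ((2 : ℕ) : ℝ) ^ 3 ≤ 4 / ((2 : ℕ) : ℝ) ^ 3 := by gcongr
        have e : (4 : ℝ) / ((2 : ℕ) : ℝ) ^ 3 = 1 / 2 := by norm_num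
        linarith
      have h7 := mul_le_mul_of_nonneg_right h6 (by positivity :
        (0 : ℝ) ≤ ((2 : ℕ) : ℝ) * (((n / 3 : ℕ) : ℝ) * A.card))
      have e1 : ((n / 3 * A.card : ℕ) : ℝ) =
          1 / 2 * (((2 : ℕ) : ℝ) * (((n / 3 : ℕ) : ℝ) * A.card)) := by
        rw [Nat.cast_mul, Nat.cast_ofNat]
        ring
      rw [e1]
      refine h7.trans (le_of_eq ?_)
      ring
    exact_mod_cast h5
  have h5 : ∀ (q n D : ℕ) (F : Finset ℕ), 2 ≤ q → F ⊆ range (q ^ n) → DegreeLe q n D F →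
      boundary q n F ≤ q * D * F.card := by
    rintro q n D F hq hF ⟨I, g, T, hg, hs⟩
    have h1 := Pool.Agent.N389.QB.deg_digits (by omega) F hF D I g T hg hs
    exact_mod_cast h1
  refine ⟨?_, ?_, ?_, ?_, ?_⟩
  · intro q n m k Q r hq hm hmn hr F A hF hA ε hb
    exact Pool.Agent.N389.QB.digits_rel (by omega) hm hmn F A hF r
      (fun c j => hr _ (filter_subset _ _) (Pool.Agent.N389.QB.slice_noAP hA c j)) ε hb
  · intro k δ hk hδ
    exact Pool.Agent.N389.QB.szem_rel k hk δ hδ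
  · intro q n A hq hAr hA
    exact ⟨fun m hm hmn => Pool.Agent.N389.QB.roth_lower (by omega) hm hmn A hAr hA,
      Pool.Agent.N389.QB.bd_upper A hAr, h3 q n A hq hAr hA⟩
  · obtain ⟨c, hc, n₀, Q, H⟩ := Pool.Agent.N389.QB.szem_rel 3 (by norm_num) (1 / 2) (by norm_num)
    refine ⟨c, hc, n₀, fun q n hq hn A F hA hF hb => ?_⟩
    have h1 := H q n hq hn F A hF (by
      rintro a₀ d ⟨a, j, ha, -, rfl⟩
      have hq0 : 0 < q := by omega
      exact hA a₀ _ (by
        show 0 < a * q ^ j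
        positivity)) hb
    have h2 : 2 * (A ∩ F).card ≤ F.card := by
      have h3 : (2 * (A ∩ F).card : ℝ) ≤ F.card := by linarith
      exact_mod_cast h3
    have h4 : (symmDiff A F).card = (A \ F).card + (F \ A).card := by
      rw [symmDiff, sup_eq_union, card_union_of_disjoint]
      exact disjoint_sdiff_sdiff
    have h5 := card_sdiff_add_card_inter A F
    have h6 := card_sdiff_add_card_inter F A
    rw [inter_comm F A] at h6
    omega
  · intro q n D F hq hF hD
    refine ⟨h5 q n D F hq hF hD, fun hq2 hne hA => ?_⟩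
    have h1 := h3 q n F hq hF hA hq2
    have h2 := h5 q n D F hq hF hD
    subst hq2
    have h4 : 0 < F.card := card_pos.2 hne
    exact Nat.le_of_mul_le_mul_right (h1.trans h2) h4

end Pool.Agent.Results.MP_0f71ae_nt.SmallBoundary
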